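import Pool.Agent.TH325.SI.Y
import Pool.Agent.W677.MarT
import Pool.Agent.Helper689.IBHol

set_option autoImplicit false

/-! Holomorphic families: the maximum principle for exponential square means. -/

namespace Pool.Agent.X104.MF

open Complex Metric Set Filter Topology MeasureTheory

section fam

variable {G : ℂ → ℝ → ℂ} {M k c c₀ B : ℝ}

theorem g_eq (h0 : ∀ θ, G 0 θ = 0) (l : ℂ) (θ : ℝ) :
    l * dslope (fun m => G m θ) 0 l = G l θ := by
  have h := sub_smul_dslope (fun m => G m θ) 0 l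
  simp only [sub_zero, smul_eq_mul, h0] at h
  exact h

theorem g_diff (hG : ∀ θ, DifferentiableOn ℂ (fun l => G l θ) (ball 0 1)) (θ : ℝ) :
    DifferentiableOn ℂ (dslope (fun m => G m θ) 0) (ball 0 1) :=
  (Complex.differentiableOn_dslope (isOpen_ball.mem_nhds (mem_ball_self one_pos))).2 (hG θ)

theorem g_bound (hG : ∀ θ, DifferentiableOn ℂ (fun l => G l θ) (ball 0 1)) (h0 : ∀ θ, G 0 θ = 0)
    (hM : ∀ l ∈ ball (0:ℂ) 1, ∀ θ, ‖G l θ‖ ≤ M) {l : ℂ} (hl : l ∈ ball (0:ℂ) 1) (θ : ℝ) :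
    ‖dslope (fun m => G m θ) 0 l‖ ≤ M := by
  have hmaps : MapsTo (fun m => G m θ) (ball 0 1) (closedBall ((fun m => G m θ) 0) M) := by
    intro m hm
    simp only [h0 θ, mem_closedBall_zero_iff]
    exact hM m hm θ
  have := Complex.norm_dslope_le_div_of_mapsTo_ball (hG θ) hmaps hl
  simpa using this

theorem g_meas (hG : ∀ θ, DifferentiableOn ℂ (fun l => G l θ) (ball 0 1)) (h0 : ∀ θ, G 0 θ = 0)
    (hc : ∀ l ∈ ball (0:ℂ) 1, Continuous (G l)) {l : ℂ} (hl : l ∈ ball (0:ℂ) 1) :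
    Measurable fun θ => dslope (fun m => G m θ) 0 l := by
  have h1 : ∀ m : ℂ, m ∈ ball (0:ℂ) 1 → m ≠ 0 → Measurable fun θ => dslope (fun m => G m θ) 0 m := by
    intro m hm hm0
    have e : (fun θ => dslope (fun m => G m θ) 0 m) = fun θ => G m θ / m := by
      funext θ
      rw [eq_div_iff hm0, mul_comm]
      exact g_eq h0 m θ
    rw [e]
    exact ((hc m hm).div_const m).measurable
  by_cases hl0 : l = 0
  · subst hl0
    have hs : ∀ n : ℕ, ((1 / ((n:ℝ) + 2) : ℝ) : ℂ) ∈ ball (0:ℂ) 1 := by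
      intro n
      rw [mem_ball_zero_iff, Complex.norm_real, Real.norm_of_nonneg (by positivity),
        div_lt_one (by positivity)]
      have : (0:ℝ) ≤ n := n.cast_nonneg
      linarith
    refine measurable_of_tendsto_metrizable (f := fun n : ℕ => fun θ =>
      dslope (fun m => G m θ) 0 ((1 / ((n:ℝ) + 2) : ℝ) : ℂ)) (fun n => h1 _ (hs n) ?_) ?_
    · have : (0:ℝ) < 1 / ((n:ℝ) + 2) := by positivity
      exact_mod_cast this.ne'
    · rw [tendsto_pi_nhds]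
      intro θ
      have hcont : ContinuousAt (dslope (fun m => G m θ) 0) 0 :=
        ((g_diff hG θ).differentiableAt (isOpen_ball.mem_nhds (mem_ball_self one_pos))).continuousAt
      have ht : Tendsto (fun n : ℕ => ((1 / ((n:ℝ) + 2) : ℝ) : ℂ)) atTop (𝓝 0) := by
        rw [show (0:ℂ) = ((0:ℝ) : ℂ) by simp]
        refine (Complex.continuous_ofReal.tendsto 0).comp ?_
        refine Tendsto.div_atTop tendsto_const_nhds ?_
        exact tendsto_atTop_add_const_right _ _ tendsto_natCast_atTop_atTop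
      exact hcont.tendsto.comp ht
  · exact h1 l hl hl0

theorem int_of_bdd {f : ℝ → ℂ} (hf : Measurable f) {C : ℝ} (hC : ∀ θ, ‖f θ‖ ≤ C) :
    Integrable f (volume.restrict (Ioc 0 (2 * Real.pi))) := by
  have : IsFiniteMeasure (volume.restrict (Ioc (0:ℝ) (2 * Real.pi))) := by
    constructor
    rw [Measure.restrict_apply MeasurableSet.univ, univ_inter, Real.volume_Ioc]
    exact ENNReal.ofReal_lt_top
  exact Integrable.of_bound hf.aestronglyMeasurable C (Eventually.of_forall hC)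

theorem int_of_bdd' {f : ℝ → ℝ} (hf : Measurable f) {C : ℝ} (hC : ∀ θ, ‖f θ‖ ≤ C) :
    Integrable f (volume.restrict (Ioc 0 (2 * Real.pi))) := by
  have : IsFiniteMeasure (volume.restrict (Ioc (0:ℝ) (2 * Real.pi))) := by
    constructor
    rw [Measure.restrict_apply MeasurableSet.univ, univ_inter, Real.volume_Ioc]
    exact ENNReal.ofReal_lt_top
  exact Integrable.of_bound hf.aestronglyMeasurable C (Eventually.of_forall hC)

/-- **Maximum principle**: the exponential square mean of a holomorphic family vanishing at `0`. -/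
theorem fam (hG : ∀ θ, DifferentiableOn ℂ (fun l => G l θ) (ball 0 1)) (h0 : ∀ θ, G 0 θ = 0)
    (hc : ∀ l ∈ ball (0:ℂ) 1, Continuous (G l)) (hM : ∀ l ∈ ball (0:ℂ) 1, ∀ θ, ‖G l θ‖ ≤ M)
    (hc0 : 0 ≤ c) (hk1 : k < 1) (hck : c * k ^ 2 < c₀)
    (hB : ∀ l ∈ ball (0:ℂ) 1, ∫ θ in (0:ℝ)..(2 * Real.pi), Real.exp (c₀ * ‖G l θ‖ ^ 2) ≤ B)
    {l₀ : ℂ} (hl : ‖l₀‖ ≤ k) :
    ∫ θ in (0:ℝ)..(2 * Real.pi), Real.exp (c * ‖G l₀ θ‖ ^ 2) ≤ B := by
  have hpi := Real.pi_pos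
  have hk0 : 0 ≤ k := (norm_nonneg _).trans hl
  obtain ⟨d, hd⟩ : ∃ d, d = c * k ^ 2 := ⟨_, rfl⟩
  have hd0 : 0 ≤ d := by rw [hd]; positivity
  rw [← hd] at hck
  have hc₀ : 0 < c₀ := lt_of_le_of_lt hd0 hck
  have hl1 : l₀ ∈ ball (0:ℂ) 1 := by rw [mem_ball_zero_iff]; linarith
  have hM0 : 0 ≤ M := (norm_nonneg _).trans (hM 0 (mem_ball_self one_pos) 0)
  -- radius
  obtain ⟨ρ, hρk, hρ1, hρd⟩ : ∃ ρ : ℝ, k < ρ ∧ ρ < 1 ∧ d ≤ c₀ * ρ ^ 2 := by
    have h1 : Tendsto (fun ρ : ℝ => c₀ * ρ ^ 2) (𝓝[<] 1) (𝓝 (c₀ * 1 ^ 2)) :=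
      Tendsto.mono_left (by exact ((continuous_const.mul (continuous_pow 2)).tendsto 1)) nhdsWithin_le_nhds
    rw [one_pow, mul_one] at h1
    have h2 := h1.eventually (lt_mem_nhds hck)
    obtain ⟨ρ, h3, h4⟩ := (h2.and (Ioo_mem_nhdsLT hk1)).exists
    exact ⟨ρ, h4.1, h4.2, h3.le⟩
  have hρ0 : 0 < ρ := lt_of_le_of_lt hk0 hρk
  obtain ⟨g, hg⟩ : ∃ g : ℂ → ℝ → ℂ, g = fun l θ => dslope (fun m => G m θ) 0 l := ⟨_, rfl⟩
  have hgM : ∀ l ∈ ball (0:ℂ) 1, ∀ θ, ‖g l θ‖ ≤ M := fun l hl θ => by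
    rw [hg]; exact g_bound hG h0 hM hl θ
  have hgd : ∀ θ, DifferentiableOn ℂ (fun l => g l θ) (ball 0 1) := fun θ => by
    rw [hg]; exact g_diff hG θ
  have hgm : ∀ l ∈ ball (0:ℂ) 1, Measurable (g l) := fun l hl => by
    rw [hg]; exact g_meas hG h0 hc hl
  have hge : ∀ l θ, l * g l θ = G l θ := fun l θ => by rw [hg]; exact g_eq h0 l θ
  set μ := volume.restrict (Ioc (0:ℝ) (2 * Real.pi)) with hμ
  -- the holomorphic function
  obtain ⟨F, hF⟩ : ∃ F : ℂ → ℝ → ℂ, F = fun l θ => Complex.exp ((d:ℂ) * (g l θ * (starRingEnd ℂ) (g l₀ θ))) :=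
    ⟨_, rfl⟩
  have hFn : ∀ l θ, ‖F l θ‖ ≤ Real.exp (d * (‖g l θ‖ * ‖g l₀ θ‖)) := by
    intro l θ
    rw [hF]
    simp only
    rw [Complex.norm_exp]
    apply Real.exp_le_exp.2
    rw [Complex.re_ofReal_mul]
    apply mul_le_mul_of_nonneg_left _ hd0
    refine (Complex.re_le_norm _).trans (le_of_eq ?_)
    rw [norm_mul, RCLike.norm_conj]
  have hFb : ∀ l ∈ ball (0:ℂ) 1, ∀ θ, ‖F l θ‖ ≤ Real.exp (d * (M * M)) := by
    intro l hl θ
    refine (hFn l θ).trans (Real.exp_le_exp.2 ?_)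
    have := hgM l hl θ
    have := hgM l₀ hl1 θ
    gcongr
  have hFm : ∀ l ∈ ball (0:ℂ) 1, Measurable (F l) := by
    intro l hl
    rw [hF]
    have h1 := hgm l hl
    have h2 := hgm l₀ hl1
    have h3 : Measurable fun θ => (starRingEnd ℂ) (g l₀ θ) := Complex.continuous_conj.measurable.comp h2
    exact Complex.measurable_exp.comp ((h1.mul h3).const_mul _)
  have hΦ : DifferentiableOn ℂ (fun l => ∫ θ, F l θ ∂μ) (ball 0 1) := by
    refine IB.holInt (b := fun _ => Real.exp (d * (M * M))) (fun θ => ?_) (fun l hl => (hFm l hl).aestronglyMeasurable)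
      ?_ (fun l hl θ => hFb l hl θ)
    · rw [hF]
      exact (((hgd θ).mul_const _).const_mul _).cexp
    · exact int_of_bdd' measurable_const (C := ‖Real.exp (d * (M * M))‖) fun _ => le_rfl
  obtain ⟨I, hI⟩ : ∃ I, I = ∫ θ, Real.exp (d * ‖g l₀ θ‖ ^ 2) ∂μ := ⟨_, rfl⟩
  have hexm : ∀ l ∈ ball (0:ℂ) 1, Measurable fun θ => Real.exp (d * ‖g l θ‖ ^ 2) := fun l hl =>
    Real.measurable_exp.comp (((hgm l hl).norm.pow_const 2).const_mul _)
  have hexi : ∀ l ∈ ball (0:ℂ) 1, Integrable (fun θ => Real.exp (d * ‖g l θ‖ ^ 2)) μ := fun l hl =>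
    int_of_bdd' (hexm l hl) (C := Real.exp (d * M ^ 2)) fun θ => by
      rw [Real.norm_of_nonneg (Real.exp_pos _).le]
      apply Real.exp_le_exp.2
      have := hgM l hl θ
      gcongr
  have hΦ0 : ∫ θ, F l₀ θ ∂μ = (I : ℂ) := by
    rw [hI, ← integral_complex_ofReal]
    congr 1
    funext θ
    rw [hF]
    simp only
    rw [Complex.mul_conj, Complex.normSq_eq_norm_sq]
    push_cast
    rfl
  -- bound on the circle
  have hcirc : ∀ m ∈ frontier (ball (0:ℂ) ρ), ‖∫ θ, F m θ ∂μ‖ ≤ (B + I) / 2 := by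
    intro m hm
    rw [frontier_ball _ hρ0.ne', mem_sphere_zero_iff_norm] at hm
    have hm1 : m ∈ ball (0:ℂ) 1 := by rw [mem_ball_zero_iff, hm]; exact hρ1
    have h1 : ∀ θ, ‖F m θ‖ ≤ (Real.exp (d * ‖g m θ‖ ^ 2) + Real.exp (d * ‖g l₀ θ‖ ^ 2)) / 2 := by
      intro θ
      refine (hFn m θ).trans ?_
      have h2 : d * (‖g m θ‖ * ‖g l₀ θ‖) ≤ (d * ‖g m θ‖ ^ 2) / 2 + (d * ‖g l₀ θ‖ ^ 2) / 2 := by
        nlinarith [mul_nonneg hd0 (sq_nonneg (‖g m θ‖ - ‖g l₀ θ‖))]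
      refine (Real.exp_le_exp.2 h2).trans ?_
      obtain ⟨x, hx⟩ : ∃ x, x = Real.exp ((d * ‖g m θ‖ ^ 2) / 2) := ⟨_, rfl⟩
      obtain ⟨y, hy⟩ : ∃ y, y = Real.exp ((d * ‖g l₀ θ‖ ^ 2) / 2) := ⟨_, rfl⟩
      have ex : Real.exp (d * ‖g m θ‖ ^ 2) = x ^ 2 := by
        rw [hx, ← Real.exp_nat_mul]
        congr 1
        push_cast
        ring
      have ey : Real.exp (d * ‖g l₀ θ‖ ^ 2) = y ^ 2 := by
        rw [hy, ← Real.exp_nat_mul]
        congr 1
        push_cast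
        ring
      rw [Real.exp_add, ex, ey, ← hx, ← hy]
      nlinarith [sq_nonneg (x - y)]
    have h3 : ∫ θ, Real.exp (d * ‖g m θ‖ ^ 2) ∂μ ≤ B := by
      refine le_trans ?_ (hB m hm1)
      rw [intervalIntegral.integral_of_le (by positivity)]
      have hGm : Measurable fun θ => Real.exp (c₀ * ‖G m θ‖ ^ 2) :=
        Real.measurable_exp.comp ((((hc m hm1).measurable).norm.pow_const 2).const_mul _)
      refine integral_mono (hexi m hm1) (int_of_bdd' hGm (C := Real.exp (c₀ * M ^ 2)) fun θ => ?_) ?_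
      · rw [Real.norm_of_nonneg (Real.exp_pos _).le]
        apply Real.exp_le_exp.2
        have := hM m hm1 θ
        gcongr
      · intro θ
        simp only
        apply Real.exp_le_exp.2
        rw [← hge m θ, norm_mul, hm, mul_pow]
        have : 0 ≤ ‖g m θ‖ ^ 2 := by positivity
        nlinarith
    calc ‖∫ θ, F m θ ∂μ‖ ≤ ∫ θ, ‖F m θ‖ ∂μ := norm_integral_le_integral_norm _
      _ ≤ ∫ θ, (Real.exp (d * ‖g m θ‖ ^ 2) + Real.exp (d * ‖g l₀ θ‖ ^ 2)) / 2 ∂μ := by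
          refine integral_mono (int_of_bdd (hFm m hm1) (hFb m hm1)).norm
            (((hexi m hm1).add (hexi l₀ hl1)).div_const 2) h1
      _ = (∫ θ, Real.exp (d * ‖g m θ‖ ^ 2) ∂μ + I) / 2 := by
          rw [integral_div, integral_add (hexi m hm1) (hexi l₀ hl1), hI]
      _ ≤ (B + I) / 2 := by linarith
  have hmax : ‖∫ θ, F l₀ θ ∂μ‖ ≤ (B + I) / 2 := by
    refine Complex.norm_le_of_forall_mem_frontier_norm_le (f := fun l => ∫ θ, F l θ ∂μ) isBounded_ball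
      ?_ hcirc (subset_closure ?_)
    · apply DifferentiableOn.diffContOnCl
      rw [closure_ball _ hρ0.ne']
      exact hΦ.mono (closedBall_subset_ball hρ1)
    · rw [mem_ball_zero_iff]; linarith
  rw [hΦ0, Complex.norm_real] at hmax
  have hI2 : I ≤ B := by
    have := le_abs_self I
    rw [← Real.norm_eq_abs] at this
    linarith
  refine le_trans ?_ hI2
  rw [intervalIntegral.integral_of_le (by positivity), hI]
  have hGm : Measurable fun θ => Real.exp (c * ‖G l₀ θ‖ ^ 2) :=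
    Real.measurable_exp.comp ((((hc l₀ hl1).measurable).norm.pow_const 2).const_mul _)
  refine integral_mono (int_of_bdd' hGm (C := Real.exp (c * M ^ 2)) fun θ => ?_) (hexi l₀ hl1) ?_
  · rw [Real.norm_of_nonneg (Real.exp_pos _).le]
    apply Real.exp_le_exp.2
    have := hM l₀ hl1 θ
    gcongr
  · intro θ
    simp only
    apply Real.exp_le_exp.2
    rw [← hge l₀ θ, norm_mul, mul_pow, hd, mul_assoc]
    apply mul_le_mul_of_nonneg_left _ hc0
    have : ‖l₀‖ ^ 2 ≤ k ^ 2 := by gcongr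
    gcongr

end fam

end Pool.Agent.X104.MF
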