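import Pool.Agent.X104.MF.Fam

set_option autoImplicit false

/-! Whole class and holomorphic families, exterior version. -/

namespace Pool.Agent.X104.MF

open Complex Metric Set Filter Topology MeasureTheory
open Pool.Agent.TH325.SI Pool.Agent.W677.Mar

/-- the whole class, exterior -/
theorem base {Y h : ℂ → ℂ} (S : Sg Y (hat h 0)) {a R : ℝ} (ha : 0 < a) (ha1 : a < 1 / 16) (hR : 1 < R) :
    ∫ θ in (0:ℝ)..(2 * Real.pi), Real.exp (a * ‖h (ep R θ)‖ ^ 2 / Real.log (R ^ 2 / (R ^ 2 - 1))) ≤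
      2 * Real.pi * (1 / (1 - 16 * a)) := by
  have hpi := Real.pi_pos
  have h1 := mean_eq (h := h) hR a
  have h2 := disc16 S ha ha1 (inv_pos.2 (by linarith : (0:ℝ) < R)) (inv_lt_one_of_one_lt₀ hR)
  have h3 : Pool.Agent.TH325.SI.em (hat h 0) (a / la R⁻¹) R⁻¹ = (2 * Real.pi)⁻¹ *
      ∫ θ in (0 : ℝ)..(2 * Real.pi), Real.exp (a * ‖hat h 0 (pt R⁻¹ θ)‖ ^ 2 / lam (R⁻¹ ^ 2)) := by
    rw [Pool.Agent.TH325.SI.em]
    congr 1
    apply intervalIntegral.integral_congr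
    intro θ _
    simp only [pt, la, lam]
    congr 1
    ring
  rw [h3, one_div] at h1
  have h4 := mul_left_cancel₀ (inv_ne_zero (by positivity : (2 * Real.pi) ≠ 0)) h1
  rw [h4]
  exact h2

theorem L_pos {R : ℝ} (hR : 1 < R) : 0 < Real.log (R ^ 2 / (R ^ 2 - 1)) := by
  rw [log_eq hR]
  exact Pool.Agent.TH325.SI.la_pos (inv_pos.2 (by linarith)) (inv_lt_one_of_one_lt₀ hR)

theorem ep_ne {R : ℝ} (hR : 1 < R) (θ : ℝ) : ep R θ ≠ 0 := by
  rw [← norm_pos_iff, norm_ep (by linarith)]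
  linarith

theorem gol {Y h : ℂ → ℂ} (S : Sg Y (hat h 0)) {R : ℝ} (hR : 1 < R) (θ : ℝ) :
    ‖h (ep R θ)‖ ≤ Real.log (R ^ 2 / (R ^ 2 - 1)) := by
  have hR0 : 0 < R := by linarith
  have hm : (ep R θ)⁻¹ ∈ ball (0:ℂ) 1 := by
    rw [mem_ball_zero_iff, norm_inv, norm_ep hR0.le]
    exact inv_lt_one_of_one_lt₀ hR
  have h1 := goluzin S hm
  rw [hat_ne _ _ (inv_ne_zero (ep_ne hR θ)), inv_inv, norm_inv, norm_ep hR0.le] at h1
  rw [log_eq hR, la]
  exact h1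

theorem ep_cont (R : ℝ) : Continuous (ep R) := by
  unfold ep
  fun_prop

theorem h_cont {h : ℂ → ℂ} (hh : DifferentiableOn ℂ h {z : ℂ | 1 < ‖z‖}) {R : ℝ} (hR : 1 < R) :
    Continuous fun θ => h (ep R θ) := by
  apply ContinuousOn.comp_continuous hh.continuousOn (ep_cont R)
  intro θ
  show 1 < ‖ep R θ‖
  rw [norm_ep (by linarith)]
  exact hR

/-- the exponential moments, exterior -/
theorem moments {Y h : ℂ → ℂ} (S : Sg Y (hat h 0)) (t : ℂ) {R : ℝ} (hR : 1 < R) :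
    ∫ θ in (0:ℝ)..(2 * Real.pi), ‖Complex.exp (t * h (ep R θ))‖ ≤
      2 * Real.pi * (R ^ 2 / (R ^ 2 - 1)) ^ (4 * ‖t‖ ^ 2) := by
  have hR0 : 0 < R := by linarith
  have hR2 : 0 < R ^ 2 - 1 := by nlinarith
  have h1 := exp_mom S ((starRingEnd ℂ) t) (inv_pos.2 hR0) (inv_lt_one_of_one_lt₀ hR)
  rw [Complex.conj_conj, RCLike.norm_conj] at h1
  have hl : lam (R⁻¹ ^ 2) = Real.log (R ^ 2 / (R ^ 2 - 1)) := by
    rw [log_eq hR, la, lam]
  rw [hl] at h1
  have e1 : (R ^ 2 / (R ^ 2 - 1)) ^ (4 * ‖t‖ ^ 2) =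
      Real.exp (4 * ‖t‖ ^ 2 * Real.log (R ^ 2 / (R ^ 2 - 1))) := by
    rw [Real.rpow_def_of_pos (by positivity), mul_comm]
  rw [e1]
  refine le_trans (le_of_eq ?_) h1
  have h2 := refl_int (F := fun θ => ‖Complex.exp (t * h (ep R θ))‖) (fun θ => by simp only [ep_per R θ])
  rw [← h2]
  apply intervalIntegral.integral_congr
  intro θ _
  simp only
  have hne : pt R⁻¹ θ ≠ 0 := by
    rw [← norm_pos_iff, norm_pt _ _ (inv_pos.2 hR0).le]
    exact inv_pos.2 hR0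
  have e2 : (pt R⁻¹ θ)⁻¹ = ep R (-θ) := by
    simp only [pt, circleMap, zero_add, ep]
    rw [mul_inv, ← Complex.exp_neg]
    push_cast
    rw [inv_inv]
    congr 2
    ring
  rw [hat_ne _ _ hne, e2, Complex.norm_exp]

/-- holomorphic families -/
theorem family {h : ℂ → ℂ → ℂ} (hS : ∀ l ∈ ball (0:ℂ) 1, ∃ Y, Sg Y (hat (h l) 0))
    (hd : ∀ l ∈ ball (0:ℂ) 1, DifferentiableOn ℂ (h l) {z : ℂ | 1 < ‖z‖})
    (hol : ∀ z : ℂ, 1 < ‖z‖ → DifferentiableOn ℂ (fun l => h l z) (ball 0 1))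
    (h0 : ∀ z : ℂ, 1 < ‖z‖ → h 0 z = 0) {a k R : ℝ} (ha : 0 < a) (hk : k < 1)
    (hak : 16 * (a * k ^ 2) < 1) (hR : 1 < R) {l : ℂ} (hl : ‖l‖ ≤ k) :
    ∫ θ in (0:ℝ)..(2 * Real.pi), Real.exp (a * ‖h l (ep R θ)‖ ^ 2 / Real.log (R ^ 2 / (R ^ 2 - 1))) ≤
      2 * Real.pi * (1 / (1 - 16 * (a * k ^ 2))) := by
  have hpi := Real.pi_pos
  have hL := L_pos hR
  obtain ⟨L, hLe⟩ : ∃ L, L = Real.log (R ^ 2 / (R ^ 2 - 1)) := ⟨_, rfl⟩
  rw [← hLe] at hL ⊢
  have hn : ∀ θ, 1 < ‖ep R θ‖ := fun θ => by rw [norm_ep (by linarith)]; exact hR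
  have key : ∀ b : ℝ, a * k ^ 2 < b → b < 1 / 16 →
      ∫ θ in (0:ℝ)..(2 * Real.pi), Real.exp (a * ‖h l (ep R θ)‖ ^ 2 / L) ≤
      2 * Real.pi * (1 / (1 - 16 * b)) := by
    intro b hb1 hb2
    have hb0 : 0 < b := lt_of_le_of_lt (by positivity) hb1
    have h1 := fam (G := fun l θ => h l (ep R θ)) (M := L) (k := k) (c := a / L) (c₀ := b / L)
      (B := 2 * Real.pi * (1 / (1 - 16 * b))) (fun θ => hol _ (hn θ)) (fun θ => h0 _ (hn θ))
      (fun m hm => h_cont (hd m hm) hR) (fun m hm θ => by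
        obtain ⟨Y, SY⟩ := hS m hm
        rw [hLe]
        exact gol SY hR θ) (by positivity) hk (by
          rw [div_mul_eq_mul_div]
          exact div_lt_div_of_pos_right hb1 hL) (fun m hm => by
        obtain ⟨Y, SY⟩ := hS m hm
        have h2 := base SY hb0 hb2 hR
        rw [← hLe] at h2
        refine le_trans (le_of_eq ?_) h2
        apply intervalIntegral.integral_congr
        intro θ _
        simp only
        congr 1
        ring) hl
    refine le_trans (le_of_eq ?_) h1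
    apply intervalIntegral.integral_congr
    intro θ _
    simp only
    congr 1
    ring
  have hlim : Tendsto (fun b : ℝ => 2 * Real.pi * (1 / (1 - 16 * b))) (𝓝[>] (a * k ^ 2))
      (𝓝 (2 * Real.pi * (1 / (1 - 16 * (a * k ^ 2))))) := by
    apply Tendsto.mono_left _ nhdsWithin_le_nhds
    apply Tendsto.const_mul
    apply Tendsto.div tendsto_const_nhds
    · exact tendsto_const_nhds.sub (tendsto_id.const_mul 16)
    · linarith
  refine ge_of_tendsto hlim ?_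
  have hlt : a * k ^ 2 < 1 / 16 := by linarith
  filter_upwards [Ioo_mem_nhdsGT hlt] with b hb
  exact key b hb.1 hb.2

/-- pointwise bound for families -/
theorem family_ptw {h : ℂ → ℂ → ℂ} (hS : ∀ l ∈ ball (0:ℂ) 1, ∃ Y, Sg Y (hat (h l) 0))
    (hol : ∀ z : ℂ, 1 < ‖z‖ → DifferentiableOn ℂ (fun l => h l z) (ball 0 1))
    (h0 : ∀ z : ℂ, 1 < ‖z‖ → h 0 z = 0) {k R : ℝ} (hk : k < 1)
    (hR : 1 < R) {l : ℂ} (hl : ‖l‖ ≤ k) (θ : ℝ) :
    ‖h l (ep R θ)‖ ≤ k * Real.log (R ^ 2 / (R ^ 2 - 1)) := by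
  have hn : ∀ θ, 1 < ‖ep R θ‖ := fun θ => by rw [norm_ep (by linarith)]; exact hR
  have hl1 : l ∈ ball (0:ℂ) 1 := by rw [mem_ball_zero_iff]; linarith
  have h1 := g_bound (G := fun l θ => h l (ep R θ)) (M := Real.log (R ^ 2 / (R ^ 2 - 1)))
    (fun θ => hol _ (hn θ)) (fun θ => h0 _ (hn θ)) (fun m hm θ => by
        obtain ⟨Y, SY⟩ := hS m hm
        exact gol SY hR θ) hl1 θ
  have h2 := g_eq (G := fun l θ => h l (ep R θ)) (fun θ => h0 _ (hn θ)) l θ
  rw [← h2, norm_mul]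
  have h3 := norm_nonneg l
  exact mul_le_mul hl h1 (norm_nonneg _) (h3.trans hl)

/-- from `b` to `a ≥ b` with a pointwise bound -/
theorem raise {u : ℝ → ℝ} (hu : Continuous u) {a b L κ B : ℝ} (hL : 0 < L) (hba : b ≤ a)
    (hub : ∀ θ, u θ ^ 2 ≤ κ * L ^ 2)
    (hB : ∫ θ in (0:ℝ)..(2 * Real.pi), Real.exp (b * u θ ^ 2 / L) ≤ B) :
    ∫ θ in (0:ℝ)..(2 * Real.pi), Real.exp (a * u θ ^ 2 / L) ≤ Real.exp ((a - b) * κ * L) * B := by
  have hpi := Real.pi_pos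
  calc ∫ θ in (0:ℝ)..(2 * Real.pi), Real.exp (a * u θ ^ 2 / L)
      ≤ ∫ θ in (0:ℝ)..(2 * Real.pi), Real.exp ((a - b) * κ * L) * Real.exp (b * u θ ^ 2 / L) := by
        apply intervalIntegral.integral_mono (by positivity)
        · exact Continuous.intervalIntegrable (by fun_prop) _ _
        · exact Continuous.intervalIntegrable (by fun_prop) _ _
        · intro θ
          simp only
          rw [← Real.exp_add]
          apply Real.exp_le_exp.2
          have h1 : u θ ^ 2 / L ≤ κ * L := by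
            rw [div_le_iff₀ hL]
            nlinarith [hub θ]
          have h2 : a * u θ ^ 2 / L = b * u θ ^ 2 / L + (a - b) * (u θ ^ 2 / L) := by ring
          rw [h2]
          nlinarith [mul_le_mul_of_nonneg_left h1 (sub_nonneg.2 hba)]
    _ = Real.exp ((a - b) * κ * L) * ∫ θ in (0:ℝ)..(2 * Real.pi), Real.exp (b * u θ ^ 2 / L) := by
        rw [intervalIntegral.integral_const_mul]
    _ ≤ _ := mul_le_mul_of_nonneg_left hB (Real.exp_pos _).le

end Pool.Agent.X104.MF
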